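import Pool.Agent.H57.LS.GBase

/-! Module GO of br_modules, part 2: an abstract Schur argument. -/

set_option autoImplicit false

namespace Pool.Agent.H14.BR

open MeasureTheory Set
open Pool.Agent.H83.LS
open Pool.Agent.H57.LS (schur)
open scoped ENNReal NNReal

/-- weighted Cauchy-Schwarz -/
theorem cs_wt {α : Type*} [MeasurableSpace α] (μ : Measure α) (b T : α → ℝ≥0∞)
    (hb : Measurable b) (hT : Measurable T) :
    (∫⁻ w, b w * T w ∂μ) ^ 2 ≤ (∫⁻ w, b w ∂μ) * ∫⁻ w, b w * T w ^ 2 ∂μ := by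
  have hpq : (2 : ℝ).HolderConjugate 2 := by
    constructor <;> norm_num
  have h := ENNReal.lintegral_mul_le_Lp_mul_Lq μ hpq
    (f := fun w => (b w) ^ (1 / 2 : ℝ)) (g := fun w => (b w) ^ (1 / 2 : ℝ) * T w)
    (hb.pow_const _).aemeasurable ((hb.pow_const _).mul hT).aemeasurable
  have e1 : ∀ x : ℝ≥0∞, x ^ (1 / 2 : ℝ) * x ^ (1 / 2 : ℝ) = x := by
    intro x
    rw [← ENNReal.rpow_add_of_nonneg _ _ (by norm_num) (by norm_num)]
    norm_num
  have e2 : ∀ x : ℝ≥0∞, (x ^ (1 / 2 : ℝ)) ^ (2 : ℝ) = x := by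
    intro x
    rw [← ENNReal.rpow_mul]
    norm_num
  have e3 : ∀ w, ((fun w => (b w) ^ (1 / 2 : ℝ)) * fun w => (b w) ^ (1 / 2 : ℝ) * T w) w =
      b w * T w := by
    intro w
    simp only [Pi.mul_apply]
    rw [← mul_assoc, e1]
  have e4 : ∀ w, ((b w) ^ (1 / 2 : ℝ) * T w) ^ (2 : ℝ) = b w * T w ^ 2 := by
    intro w
    rw [ENNReal.mul_rpow_of_nonneg _ _ (by norm_num), e2]
    norm_num
  simp only [e3, e4, e2] at h
  calc (∫⁻ w, b w * T w ∂μ) ^ 2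
      ≤ ((∫⁻ w, b w ∂μ) ^ (1 / 2 : ℝ) * (∫⁻ w, b w * T w ^ 2 ∂μ) ^ (1 / 2 : ℝ)) ^ 2 := by
        gcongr
    _ = (∫⁻ w, b w ∂μ) * ∫⁻ w, b w * T w ^ 2 ∂μ := by
        rw [mul_pow, sq, sq, e1, e1]

theorem meas_left {α β γ : Type*} [MeasurableSpace α] [MeasurableSpace β] [MeasurableSpace γ]
    {g : α → β → γ} (h : Measurable fun q : α × β => g q.1 q.2) (a : α) : Measurable (g a) :=
  h.comp measurable_prodMk_left

variable {W : Type*} [MeasurableSpace W]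

/-- the one dimensional operator -/
noncomputable def TT (κ : ℝ → ℝ≥0∞) (H : W → ℝ × ℝ → ℝ≥0∞) (w : W) (x : ℝ × ℝ) : ℝ≥0∞ :=
  ∫⁻ ρ : ℝ, (κ (x.1 - ρ) + κ (x.1 + ρ)) * H w (ρ, x.2)

theorem measurable_TT {κ : ℝ → ℝ≥0∞} {H : W → ℝ × ℝ → ℝ≥0∞} (hκ : Measurable κ)
    (hH : Measurable fun q : W × (ℝ × ℝ) => H q.1 q.2) :
    Measurable fun q : W × (ℝ × ℝ) => TT κ H q.1 q.2 := by
  unfold TT
  apply Measurable.lintegral_prod_right' (f := fun q : (W × (ℝ × ℝ)) × ℝ =>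
    (κ (q.1.2.1 - q.2) + κ (q.1.2.1 + q.2)) * H q.1.1 (q.2, q.1.2.2))
  have h1 : Measurable fun q : (W × (ℝ × ℝ)) × ℝ =>
      ((q.1.1, (q.2, q.1.2.2)) : W × (ℝ × ℝ)) := by fun_prop
  have h2 : Measurable fun q : (W × (ℝ × ℝ)) × ℝ => H q.1.1 (q.2, q.1.2.2) := hH.comp h1
  have h3 : Measurable fun q : (W × (ℝ × ℝ)) × ℝ =>
    (κ (q.1.2.1 - q.2) + κ (q.1.2.1 + q.2)) := by fun_prop
  exact h3.mul h2

omit [MeasurableSpace W] in
theorem TT_le {κ : ℝ → ℝ≥0∞} {H : W → ℝ × ℝ → ℝ≥0∞} (hκ : Measurable κ) {A : ℝ≥0∞} (hA : A ≠ ⊤)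
    (hH : ∀ w y, H w y ≤ A) (w : W) (x : ℝ × ℝ) : TT κ H w x ≤ 2 * (∫⁻ u, κ u) * A := by
  unfold TT
  calc ∫⁻ ρ : ℝ, (κ (x.1 - ρ) + κ (x.1 + ρ)) * H w (ρ, x.2)
      ≤ ∫⁻ ρ : ℝ, (κ (x.1 - ρ) + κ (x.1 + ρ)) * A :=
        lintegral_mono fun ρ => by gcongr; exact hH _ _
    _ = (∫⁻ ρ : ℝ, (κ (x.1 - ρ) + κ (x.1 + ρ))) * A := by
        rw [lintegral_mul_const' _ _ hA]
    _ = 2 * (∫⁻ u, κ u) * A := by
        rw [lintegral_add_left (by fun_prop), lintegral_sub_left_eq_self κ x.1,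
          lintegral_add_left_eq_self κ x.1, two_mul]

/-- the pointwise bound, abstract form -/
theorem abs_pt (σ : Measure W) [IsFiniteMeasure σ] (κ : ℝ → ℝ≥0∞) (H : W → ℝ × ℝ → ℝ≥0∞)
    (b : W → ℝ≥0∞) (P : ℝ → W → ℂ) (x : ℝ × ℝ) (hκ : Measurable κ)
    (hH : Measurable fun q : W × (ℝ × ℝ) => H q.1 q.2) (hb : Measurable b)
    (hP : ∀ ρ : ℝ, 0 < ρ → ∀ w, ‖P ρ w‖ₑ ≤ b w * ((κ (x.1 - ρ) + κ (x.1 + ρ)) * H w (ρ, x.2))) :
    ‖∫ ρ in Ioi (0 : ℝ), ∫ w, P ρ w ∂σ‖ₑ ≤ ∫⁻ w, b w * TT κ H w x ∂σ := by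
  have hm : Measurable fun q : ℝ × W =>
      b q.2 * ((κ (x.1 - q.1) + κ (x.1 + q.1)) * H q.2 (q.1, x.2)) := by
    have h1 : Measurable fun q : ℝ × W => ((q.2, (q.1, x.2)) : W × (ℝ × ℝ)) := by fun_prop
    have h2 : Measurable fun q : ℝ × W => H q.2 (q.1, x.2) := hH.comp h1
    have h3 : Measurable fun q : ℝ × W => κ (x.1 - q.1) + κ (x.1 + q.1) := by fun_prop
    exact (hb.comp measurable_snd).mul (h3.mul h2)
  calc ‖∫ ρ in Ioi (0 : ℝ), ∫ w, P ρ w ∂σ‖ₑ ≤ ∫⁻ ρ in Ioi (0 : ℝ), ‖∫ w, P ρ w ∂σ‖ₑ :=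
        enorm_integral_le_lintegral_enorm _
    _ ≤ ∫⁻ ρ in Ioi (0 : ℝ), ∫⁻ w, b w * ((κ (x.1 - ρ) + κ (x.1 + ρ)) * H w (ρ, x.2)) ∂σ := by
        apply setLIntegral_mono' measurableSet_Ioi
        intro ρ hρ
        exact (enorm_integral_le_lintegral_enorm _).trans (lintegral_mono fun w => hP ρ hρ w)
    _ ≤ ∫⁻ ρ : ℝ, ∫⁻ w, b w * ((κ (x.1 - ρ) + κ (x.1 + ρ)) * H w (ρ, x.2)) ∂σ :=
        setLIntegral_le_lintegral _ _
    _ = ∫⁻ w, ∫⁻ ρ : ℝ, b w * ((κ (x.1 - ρ) + κ (x.1 + ρ)) * H w (ρ, x.2)) ∂volume ∂σ := by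
        rw [lintegral_lintegral_swap]
        exact hm.aemeasurable
    _ = _ := by
        refine lintegral_congr fun w => ?_
        unfold TT
        rw [lintegral_const_mul]
        have h1 : Measurable fun ρ : ℝ => ((w, (ρ, x.2)) : W × (ℝ × ℝ)) := by fun_prop
        have h2 : Measurable fun ρ : ℝ => H w (ρ, x.2) := hH.comp h1
        have h3 : Measurable fun ρ : ℝ => κ (x.1 - ρ) + κ (x.1 + ρ) := by fun_prop
        exact h3.mul h2

theorem abs_schur (hY : T_YG) (σ : Measure W) [IsFiniteMeasure σ] (κ : ℝ → ℝ≥0∞)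
    (H : W → ℝ × ℝ → ℝ≥0∞) (b : W → W → ℝ≥0∞) (G : W → ℝ × ℝ → ℝ≥0∞) (CZ : ℝ≥0∞)
    (S : Set (ℝ × ℝ)) (hS : MeasurableSet S) (hκ : Measurable κ) (hκt : ∫⁻ u, κ u ≠ ⊤)
    (hH : Measurable fun q : W × (ℝ × ℝ) => H q.1 q.2)
    (hb : Measurable fun q : W × W => b q.1 q.2) (hb1 : ∀ v, ∫⁻ w, b v w ∂σ ≤ CZ)
    (hb2 : ∀ w, ∫⁻ v, b v w ∂σ ≤ CZ)
    (hG : ∀ v, ∀ x ∈ S, G v x ≤ ∫⁻ w, b v w * TT κ H w x ∂σ) :
    (∀ A : ℝ≥0∞, A ≠ ⊤ → (∀ w y, H w y ≤ A) → ∀ v, ∀ x ∈ S,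
      G v x ≤ CZ * (2 * (∫⁻ u, κ u) * A)) ∧
    (∫⁻ v, ∫⁻ x in S, G v x ^ 2 ∂volume ∂σ ≤ (CZ * (2 * ∫⁻ u, κ u)) ^ 2 *
      ∫⁻ w, ∫⁻ y, H w y ^ 2 ∂volume ∂σ) ∧
    (∀ K : ℝ≥0∞, (∀ w, ∫⁻ y, H w y ≤ K) → ∀ v, ∫⁻ x in S, G v x ≤
      CZ * (2 * (∫⁻ u, κ u) * K)) := by
  set I := ∫⁻ u, κ u with hI
  have hTm := measurable_TT hκ hH
  have hTw : ∀ w, Measurable fun x => TT κ H w x := fun w => hTm.comp (measurable_const.prodMk measurable_id)
  have hTx : ∀ x, Measurable fun w => TT κ H w x := fun x => hTm.comp (measurable_id.prodMk measurable_const)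
  have hbv : ∀ v, Measurable fun w => b v w := fun v => hb.comp (measurable_const.prodMk measurable_id)
  have hbw : ∀ w, Measurable fun v => b v w := fun w => hb.comp (measurable_id.prodMk measurable_const)
  refine ⟨?_, ?_, ?_⟩
  · intro A hA hHA v x hx
    calc G v x ≤ ∫⁻ w, b v w * TT κ H w x ∂σ := hG v x hx
      _ ≤ ∫⁻ w, b v w * (2 * I * A) ∂σ :=
          lintegral_mono fun w => by gcongr; exact TT_le hκ hA hHA w x
      _ = (∫⁻ w, b v w ∂σ) * (2 * I * A) := by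
          rw [lintegral_mul_const _ (hbv v)]
      _ ≤ _ := by gcongr; exact hb1 v
  · have step1 : ∀ v, ∫⁻ x in S, G v x ^ 2 ≤ CZ * ∫⁻ w, b v w * ∫⁻ x, TT κ H w x ^ 2 ∂volume ∂σ := by
      intro v
      calc ∫⁻ x in S, G v x ^ 2 ≤ ∫⁻ x in S, (∫⁻ w, b v w * TT κ H w x ∂σ) ^ 2 := by
            apply setLIntegral_mono' hS
            intro x hx
            gcongr
            exact hG v x hx
        _ ≤ ∫⁻ x, (∫⁻ w, b v w * TT κ H w x ∂σ) ^ 2 := setLIntegral_le_lintegral _ _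
        _ ≤ ∫⁻ x, CZ * ∫⁻ w, b v w * TT κ H w x ^ 2 ∂σ := by
            apply lintegral_mono
            intro x
            exact (cs_wt σ (b v) (fun w => TT κ H w x) (hbv v) (hTx x)).trans
              (mul_le_mul_left (hb1 v) _)
        _ = CZ * ∫⁻ x, ∫⁻ w, b v w * TT κ H w x ^ 2 ∂σ := by
            rw [lintegral_const_mul]
            apply Measurable.lintegral_prod_right' (f := fun q : (ℝ × ℝ) × W =>
              b v q.2 * TT κ H q.2 q.1 ^ 2)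
            have h1 : Measurable fun q : (ℝ × ℝ) × W => TT κ H q.2 q.1 :=
              hTm.comp (measurable_snd.prodMk measurable_fst)
            exact ((hbv v).comp measurable_snd).mul (h1.pow_const 2)
        _ = CZ * ∫⁻ w, ∫⁻ x, b v w * TT κ H w x ^ 2 ∂volume ∂σ := by
            congr 1
            rw [lintegral_lintegral_swap]
            have h1 : Measurable fun q : (ℝ × ℝ) × W => TT κ H q.2 q.1 :=
              hTm.comp (measurable_snd.prodMk measurable_fst)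
            exact (((hbv v).comp measurable_snd).mul (h1.pow_const 2)).aemeasurable
        _ = CZ * ∫⁻ w, b v w * ∫⁻ x, TT κ H w x ^ 2 ∂volume ∂σ := by
            congr 1
            refine lintegral_congr fun w => ?_
            rw [lintegral_const_mul _ ((hTw w).pow_const 2)]
    have step2 : ∀ w, ∫⁻ x, TT κ H w x ^ 2 ≤ (2 * I) ^ 2 * ∫⁻ y, H w y ^ 2 := by
      intro w
      have hHw : Measurable (H w) := hH.comp (measurable_const.prodMk measurable_id)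
      have h := schur hY κ (H w) 2 (by norm_num) hκ hκt hHw
      norm_num at h
      rw [mul_pow, mul_assoc, show (2 : ℝ≥0∞) ^ 2 = 4 by norm_num]
      exact h
    have hH2 : Measurable fun w => ∫⁻ y, H w y ^ 2 := by
      apply Measurable.lintegral_prod_right' (f := fun q : W × (ℝ × ℝ) => H q.1 q.2 ^ 2)
      exact hH.pow_const 2
    calc ∫⁻ v, ∫⁻ x in S, G v x ^ 2 ∂volume ∂σ
        ≤ ∫⁻ v, CZ * ∫⁻ w, b v w * ((2 * I) ^ 2 * ∫⁻ y, H w y ^ 2) ∂σ ∂σ := by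
          apply lintegral_mono
          intro v
          exact (step1 v).trans (mul_le_mul_right (lintegral_mono fun w =>
            mul_le_mul_right (step2 w) _) _)
      _ = CZ * ∫⁻ v, ∫⁻ w, b v w * ((2 * I) ^ 2 * ∫⁻ y, H w y ^ 2) ∂σ ∂σ := by
          rw [lintegral_const_mul]
          apply Measurable.lintegral_prod_right' (f := fun q : W × W =>
            b q.1 q.2 * ((2 * I) ^ 2 * ∫⁻ y, H q.2 y ^ 2))
          exact hb.mul ((hH2.comp measurable_snd).const_mul _)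
      _ = CZ * ∫⁻ w, ∫⁻ v, b v w * ((2 * I) ^ 2 * ∫⁻ y, H w y ^ 2) ∂σ ∂σ := by
          congr 1
          rw [lintegral_lintegral_swap]
          exact (hb.mul ((hH2.comp measurable_snd).const_mul _)).aemeasurable
      _ = CZ * ∫⁻ w, (∫⁻ v, b v w ∂σ) * ((2 * I) ^ 2 * ∫⁻ y, H w y ^ 2) ∂σ := by
          congr 1
          refine lintegral_congr fun w => ?_
          rw [lintegral_mul_const _ (hbw w)]
      _ ≤ CZ * ∫⁻ w, CZ * ((2 * I) ^ 2 * ∫⁻ y, H w y ^ 2) ∂σ := by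
          gcongr with w
          exact hb2 w
      _ = (CZ * (2 * I)) ^ 2 * ∫⁻ w, ∫⁻ y, H w y ^ 2 ∂volume ∂σ := by
          rw [lintegral_const_mul _ (hH2.const_mul _), lintegral_const_mul _ hH2]
          ring
  · intro K hK v
    calc ∫⁻ x in S, G v x ≤ ∫⁻ x in S, ∫⁻ w, b v w * TT κ H w x ∂σ :=
          setLIntegral_mono' hS (hG v)
      _ ≤ ∫⁻ x, ∫⁻ w, b v w * TT κ H w x ∂σ := setLIntegral_le_lintegral _ _
      _ = ∫⁻ w, ∫⁻ x, b v w * TT κ H w x ∂volume ∂σ := by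
          rw [lintegral_lintegral_swap]
          have h1 : Measurable fun q : (ℝ × ℝ) × W => TT κ H q.2 q.1 :=
            hTm.comp (measurable_snd.prodMk measurable_fst)
          exact (((hbv v).comp measurable_snd).mul h1).aemeasurable
      _ = ∫⁻ w, b v w * ∫⁻ x, TT κ H w x ∂volume ∂σ := by
          refine lintegral_congr fun w => ?_
          rw [lintegral_const_mul _ (hTw w)]
      _ ≤ ∫⁻ w, b v w * (2 * I * K) ∂σ := by
          gcongr with w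
          have hHw : Measurable (H w) := hH.comp (measurable_const.prodMk measurable_id)
          have h := schur hY κ (H w) 1 le_rfl hκ hκt hHw
          simp only [ENNReal.rpow_one] at h
          refine h.trans ?_
          rw [← mul_assoc]
          gcongr
          exact hK w
      _ = (∫⁻ w, b v w ∂σ) * (2 * I * K) := by rw [lintegral_mul_const _ (hbv v)]
      _ ≤ _ := by gcongr; exact hb1 v

end Pool.Agent.H14.BR
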