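import Pool.Agent.H14.BR.GO1
import Pool.Agent.H14.BR.GO2

/-! Module GO of br_modules: bounds for `GT`. -/

set_option autoImplicit false

namespace Pool.Agent.H14.BR

open MeasureTheory Set
open Pool.Agent.H83.AR Pool.Agent.H93.AR Pool.Agent.H83.LS Pool.Agent.H54.LS Pool.Agent.H14.LS
open Pool.Agent.H57.LS (measurable_ck ck lintegral_ck)
open scoped ENNReal NNReal

/-- the angular kernel with values in `[0,∞]` -/
noncomputable def bb (n : ℕ) (L : ℝ) (v w : Sp n) : ℝ≥0∞ := ENNReal.ofReal (bz n L v w)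

theorem measurable_bb (n : ℕ) (L : ℝ) :
    Measurable fun q : Sp n × Sp n => bb n L q.1 q.2 := by
  unfold bb bz
  apply ENNReal.measurable_ofReal.comp
  fun_prop

theorem bb_symm (n : ℕ) (L : ℝ) (v w : Sp n) : bb n L v w = bb n L w v := by
  unfold bb bz
  rw [norm_sub_rev (v : EE n) w, add_comm (v : EE n) w]

/-- modulus of the profile -/
noncomputable def Hf (n : ℕ) (f : EE (n + 1) → ℂ) (w : Sp n) (y : ℝ × ℝ) : ℝ≥0∞ :=
  (Ioi (0 : ℝ)).indicator (fun _ => ‖Fr n f w y‖ₑ) y.1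

theorem measurable_Hf (n : ℕ) (f : EE (n + 1) → ℂ) (hf : Measurable f) :
    Measurable fun q : Sp n × (ℝ × ℝ) => Hf n f q.1 q.2 := by
  have h1 := (measurable_Fr n f hf).enorm
  have h2 : MeasurableSet {q : Sp n × (ℝ × ℝ) | 0 < q.2.1} :=
    measurableSet_lt measurable_const (by fun_prop)
  have h3 : (fun q : Sp n × (ℝ × ℝ) => Hf n f q.1 q.2) =
      {q : Sp n × (ℝ × ℝ) | 0 < q.2.1}.indicator (fun q => ‖Fr n f q.1 q.2‖ₑ) := by
    funext q
    simp only [Hf, indicator, mem_Ioi, mem_ofPred_eq]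
  rw [h3]
  exact h1.indicator h2

theorem hor_jo' {n : ℕ} (w : Sp n) {ρ : ℝ} (hρ : 0 < ρ) (z : ℝ) :
    hor (jo (ρ • (w : EE n)) z) = ρ := hor_cyl w ⟨ρ, hρ⟩ z

theorem norm_Fr {n : ℕ} (f : EE (n + 1) → ℂ) (w : Sp n) {y : ℝ × ℝ} (hy : 0 < y.1) :
    ‖Fr n f w y‖ = y.1 ^ (((n : ℝ) - 1) / 2) * ‖f (jo (y.1 • (w : EE n)) y.2)‖ := by
  unfold Fr
  rw [norm_mul, Complex.norm_real, Real.norm_of_nonneg (Real.rpow_nonneg hy.le _)]

theorem Hf_le {n : ℕ} {A : ℝ} {f : EE (n + 1) → ℂ}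
    (hA : ∀ x, hor x ^ (((n : ℝ) - 1) / 2) * ‖f x‖ ≤ A) (w : Sp n) (y : ℝ × ℝ) :
    Hf n f w y ≤ ENNReal.ofReal A := by
  unfold Hf
  by_cases hy : y.1 ∈ Ioi (0 : ℝ)
  · rw [indicator_of_mem hy, ← ofReal_norm]
    apply ENNReal.ofReal_le_ofReal
    rw [mem_Ioi] at hy
    rw [norm_Fr f w hy]
    have h := hA (jo (y.1 • (w : EE n)) y.2)
    rwa [hor_jo' w hy] at h
  · rw [indicator_of_notMem hy]
    exact zero_le

theorem lint_Hf_sq (n : ℕ) (hn : 1 ≤ n) (f : EE (n + 1) → ℂ) (hf : Measurable f) :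
    ∫⁻ w : Sp n, ∫⁻ y, Hf n f w y ^ 2 ∂volume ∂(sg n) = ∫⁻ x, ‖f x‖ₑ ^ 2 := by
  rw [lint_cyl n hn (fun x => ‖f x‖ₑ ^ 2) (hf.enorm.pow_const 2)]
  refine lintegral_congr fun w => lintegral_congr fun y => ?_
  unfold Hf
  by_cases hy : y.1 ∈ Ioi (0 : ℝ)
  · rw [indicator_of_mem hy, indicator_of_mem hy]
    rw [mem_Ioi] at hy
    rw [← ofReal_norm, norm_Fr f w hy, ← ofReal_norm,
      ← ENNReal.ofReal_pow (by positivity), ← ENNReal.ofReal_pow (by positivity),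
      ← ENNReal.ofReal_mul (by positivity)]
    congr 1
    rw [mul_pow]
    congr 1
    rw [← Real.rpow_natCast (y.1 ^ (((n : ℝ) - 1) / 2)), ← Real.rpow_mul hy.le,
      ← Real.rpow_natCast y.1]
    congr 1
    push_cast [Nat.cast_sub hn]
    ring
  · rw [indicator_of_notMem hy, indicator_of_notMem hy]
    simp

theorem lint_Hf_le {n : ℕ} {A B : ℝ} {f : EE (n + 1) → ℂ} (hf : BCd B f)
    (hA : ∀ x, hor x ^ (((n : ℝ) - 1) / 2) * ‖f x‖ ≤ A) :
    ∃ K : ℝ≥0∞, K ≠ ⊤ ∧ ∀ w : Sp n, ∫⁻ y, Hf n f w y ≤ K := by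
  obtain ⟨_, _, R, hR⟩ := hf
  refine ⟨ENNReal.ofReal A * volume (Metric.closedBall (0 : ℝ × ℝ) R),
    (ENNReal.mul_lt_top ENNReal.ofReal_lt_top measure_closedBall_lt_top).ne, fun w => ?_⟩
  calc ∫⁻ y, Hf n f w y ≤ ∫⁻ y, (Metric.closedBall (0 : ℝ × ℝ) R).indicator
        (fun _ => ENNReal.ofReal A) y := by
        apply lintegral_mono
        intro y
        show Hf n f w y ≤ _
        by_cases hy : y ∈ Metric.closedBall (0 : ℝ × ℝ) R
        · rw [indicator_of_mem hy]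
          exact Hf_le hA w y
        · rw [indicator_of_notMem hy]
          unfold Hf
          by_cases hy1 : y.1 ∈ Ioi (0 : ℝ)
          · rw [indicator_of_mem hy1]
            rw [mem_Ioi] at hy1
            have h1 : f (jo (y.1 • (w : EE n)) y.2) = 0 := by
              apply hR
              rw [mem_closedBall_zero_iff] at hy
              have h2 : ‖jo (y.1 • (w : EE n)) y.2‖ ^ 2 = y.1 ^ 2 + y.2 ^ 2 := by
                rw [jo_norm_sq, norm_smul, norm_sp, mul_one, Real.norm_eq_abs, sq_abs]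
              have h3 : ‖y‖ ^ 2 ≤ ‖jo (y.1 • (w : EE n)) y.2‖ ^ 2 := by
                rw [h2, Prod.norm_def]
                rcases max_choice ‖y.1‖ ‖y.2‖ with h | h
                · rw [h, Real.norm_eq_abs, sq_abs]; nlinarith [sq_nonneg y.2]
                · rw [h, Real.norm_eq_abs, sq_abs]; nlinarith [sq_nonneg y.1]
              have h4 : ‖y‖ ≤ ‖jo (y.1 • (w : EE n)) y.2‖ :=
                le_of_sq_le_sq h3 (norm_nonneg _)
              push Not at hy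
              linarith
            unfold Fr
            rw [h1]
            simp
          · rw [indicator_of_notMem hy1]
    _ = _ := by rw [lintegral_indicator_const Metric.isClosed_closedBall.measurableSet]

/-- the kernel bound gives the pointwise bound -/
theorem GT_pt (n : ℕ) (L Lam c : ℝ) (hL : 0 ≤ L) (hLam : 0 < Lam) (hc : 0 ≤ c)
    (f : EE (n + 1) → ℂ) (hf : Measurable f) (v : Sp n) (x : ℝ × ℝ)
    (hk : ∀ ρ : ℝ, 0 < ρ → ∀ w : Sp n, f (jo (ρ • (w : EE n)) x.2) ≠ 0 →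
      ‖((Lam : ℝ) : ℂ) * kz n L (fun s => ((chi s : ℝ) : ℂ)) (Lam * x.1) (Lam * ρ) v w‖ ≤
        c * (Lam * (1 + (Lam * (x.1 - ρ)) ^ 2)⁻¹ + Lam * (1 + (Lam * (x.1 + ρ)) ^ 2)⁻¹) *
          bz n L v w) :
    ‖GT n L Lam f v x‖ₑ ≤
      ∫⁻ w, bb n L v w * TT (fun u => ENNReal.ofReal c * ck Lam u) (Hf n f) w x ∂(sg n) := by
  have hκm : Measurable fun u => ENNReal.ofReal c * ck Lam u := (measurable_ck Lam).const_mul _
  have hHm := measurable_Hf n f hf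
  have hbm := measurable_bb n L
  have hbv : Measurable (bb n L v) := meas_left (g := bb n L) hbm v
  unfold GT
  refine abs_pt (sg n) (fun u => ENNReal.ofReal c * ck Lam u) (Hf n f) (bb n L v) _ x
    hκm hHm hbv ?_
  intro ρ hρ w
  by_cases hz : f (jo (ρ • (w : EE n)) x.2) = 0
  · rw [hz, mul_zero, mul_zero, enorm_zero]
    exact zero_le
  have hk1 := hk ρ hρ w hz
  have e1 : Hf n f w (ρ, x.2) =
      ‖((ρ ^ (((n : ℝ) - 1) / 2) : ℝ) : ℂ) * f (jo (ρ • (w : EE n)) x.2)‖ₑ := by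
    unfold Hf Fr
    rw [indicator_of_mem (show (ρ, x.2).1 ∈ Ioi (0 : ℝ) from hρ)]
  have hb0 : 0 ≤ bz n L v w := by unfold bz; positivity
  rw [enorm_mul, e1, ← mul_assoc]
  generalize ((Lam : ℝ) : ℂ) *
      kz n L (fun s => ((chi s : ℝ) : ℂ)) (Lam * x.1) (Lam * ρ) v w = Z at hk1 ⊢
  apply mul_le_mul_left
  calc ‖Z‖ₑ = ENNReal.ofReal ‖Z‖ := by rw [ofReal_norm]
    _ ≤ ENNReal.ofReal (c * (Lam * (1 + (Lam * (x.1 - ρ)) ^ 2)⁻¹ +
          Lam * (1 + (Lam * (x.1 + ρ)) ^ 2)⁻¹) * bz n L v w) :=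
        ENNReal.ofReal_le_ofReal hk1
    _ = bb n L v w * (ENNReal.ofReal c * ck Lam (x.1 - ρ) + ENNReal.ofReal c * ck Lam (x.1 + ρ)) := by
        simp only [ck]
        rw [ENNReal.ofReal_mul (by positivity), ENNReal.ofReal_mul hc,
          ENNReal.ofReal_add (by positivity) (by positivity), mul_add]
        unfold bb
        ring

/-- consequences of a pointwise kernel bound -/
theorem GT_bounds (hY : T_YG) (n : ℕ) (hn : 1 ≤ n) (L Lam A B : ℝ) (f : EE (n + 1) → ℂ)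
    (CZ : ℝ≥0) (hCZ : ∀ v : Sp n, ∫⁻ w : Sp n, ENNReal.ofReal (bz n L v w) ∂(sg n) ≤ CZ)
    (hL : 1 ≤ L) (hLam : 0 < Lam) (hf : BCd B f)
    (hA : ∀ x, hor x ^ (((n : ℝ) - 1) / 2) * ‖f x‖ ≤ A) (c : ℝ) (hc : 0 ≤ c)
    (S : Set (ℝ × ℝ)) (hS : MeasurableSet S)
    (hk : ∀ x ∈ S, ∀ ρ : ℝ, 0 < ρ → ∀ v w : Sp n, f (jo (ρ • (w : EE n)) x.2) ≠ 0 →
      ‖((Lam : ℝ) : ℂ) * kz n L (fun s => ((chi s : ℝ) : ℂ)) (Lam * x.1) (Lam * ρ) v w‖ ≤
        c * (Lam * (1 + (Lam * (x.1 - ρ)) ^ 2)⁻¹ + Lam * (1 + (Lam * (x.1 + ρ)) ^ 2)⁻¹) *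
          bz n L v w) :
    (∀ v, ∀ x ∈ S, ‖GT n L Lam f v x‖ ≤ 2 * Real.pi * c * CZ * A) ∧
    (∫⁻ v : Sp n, ∫⁻ x in S, ‖GT n L Lam f v x‖ₑ ^ 2 ∂volume ∂(sg n) ≤
      ENNReal.ofReal ((2 * Real.pi * c * CZ) ^ 2) * ∫⁻ x, ‖f x‖ₑ ^ 2) ∧
    (∀ v, ∫⁻ x in S, ‖GT n L Lam f v x‖ₑ < ⊤) := by
  have hA0 : 0 ≤ A := (mul_nonneg (Real.rpow_nonneg (Real.sqrt_nonneg _) _) (norm_nonneg _)).trans (hA 0)
  set κ : ℝ → ℝ≥0∞ := fun u => ENNReal.ofReal c * ck Lam u with hκ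
  have hκm : Measurable κ := (measurable_ck Lam).const_mul _
  have hκI : ∫⁻ u, κ u = ENNReal.ofReal (Real.pi * c) := by
    rw [hκ, lintegral_const_mul' _ _ ENNReal.ofReal_ne_top, lintegral_ck Lam hLam,
      ← ENNReal.ofReal_mul hc, mul_comm]
  have hκt : ∫⁻ u, κ u ≠ ⊤ := by rw [hκI]; exact ENNReal.ofReal_ne_top
  have hL0 : 0 ≤ L := by linarith
  obtain ⟨h1, h2, h3⟩ := abs_schur hY (sg n) κ (Hf n f) (bb n L)
    (fun v x => ‖GT n L Lam f v x‖ₑ) CZ S hS hκm hκt (measurable_Hf n f hf.1)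
    (measurable_bb n L) hCZ (fun w => by
      simp_rw [bb_symm n L _ w]
      exact hCZ w)
    (fun v x hx => GT_pt n L Lam c hL0 hLam hc f hf.1 v x (fun ρ hρ w hz => hk x hx ρ hρ v w hz))
  have e2 : (CZ : ℝ≥0∞) * (2 * ENNReal.ofReal (Real.pi * c)) =
      ENNReal.ofReal (2 * Real.pi * c * CZ) := by
    rw [show (2 : ℝ≥0∞) = ENNReal.ofReal 2 by norm_num, ← ENNReal.ofReal_coe_nnreal (p := CZ),
      ← ENNReal.ofReal_mul (by norm_num), ← ENNReal.ofReal_mul (by positivity)]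
    congr 1
    ring
  refine ⟨?_, ?_, ?_⟩
  · intro v x hx
    have h4 := h1 (ENNReal.ofReal A) ENNReal.ofReal_ne_top (Hf_le hA) v x hx
    rw [hκI, ← mul_assoc, ← mul_assoc, mul_assoc (CZ : ℝ≥0∞), e2,
      ← ENNReal.ofReal_mul (by positivity), ← ofReal_norm] at h4
    exact (ENNReal.ofReal_le_ofReal_iff (by positivity)).1 h4
  · rw [hκI, e2, lint_Hf_sq n hn f hf.1, ← ENNReal.ofReal_pow (by positivity)] at h2
    exact h2
  · intro v
    obtain ⟨K, hK, hK'⟩ := lint_Hf_le hf hA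
    refine (h3 K hK' v).trans_lt ?_
    rw [hκI]
    exact ENNReal.mul_lt_top ENNReal.coe_lt_top (ENNReal.mul_lt_top
      (ENNReal.mul_lt_top (by norm_num) ENNReal.ofReal_lt_top) hK.lt_top)

lemma inv_sq_le {v : ℝ} : ((1 + |v|) ^ 2)⁻¹ ≤ (1 + v ^ 2)⁻¹ := by
  apply inv_anti₀ (by positivity)
  nlinarith [abs_nonneg v, sq_abs v]

theorem pf_go (hKW : T_KW) (hBZ : T_BZ) (hYG : T_YG) (hZB : T_ZB) : T_GO := by
  intro n hn
  have hn1 : 1 ≤ n := by omega
  obtain ⟨CZ, hCZ⟩ := hBZ n hn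
  refine ⟨?_, ?_⟩
  · obtain ⟨C, hC0, hC⟩ := hKW n 2 hn
    refine ⟨2 * Real.pi * C * CZ + (2 * Real.pi * C * CZ) ^ 2, by positivity, ?_⟩
    intro L Lam A B f hL hLam hf hfs hA
    have hA0 : 0 ≤ A :=
      (mul_nonneg (Real.rpow_nonneg (Real.sqrt_nonneg _) _) (norm_nonneg _)).trans (hA 0)
    have hk : ∀ x ∈ (univ : Set (ℝ × ℝ)), ∀ ρ : ℝ, 0 < ρ → ∀ v w : Sp n,
        f (jo (ρ • (w : EE n)) x.2) ≠ 0 →
        ‖((Lam : ℝ) : ℂ) * kz n L (fun s => ((chi s : ℝ) : ℂ)) (Lam * x.1) (Lam * ρ) v w‖ ≤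
        C * (Lam * (1 + (Lam * (x.1 - ρ)) ^ 2)⁻¹ + Lam * (1 + (Lam * (x.1 + ρ)) ^ 2)⁻¹) *
          bz n L v w := by
      intro x _ ρ hρ v w hz
      have h0 := hfs _ hz
      rw [hor_jo' w hρ] at h0
      have h1 := (hC L Lam x.1 ρ v w hL hLam h0).1
      have hb0 : 0 ≤ bz n L v w := by unfold bz; positivity
      refine h1.trans ?_
      apply mul_le_mul_of_nonneg_right _ hb0
      have h4 := inv_sq_le (v := Lam * x.1 - Lam * ρ)
      have h5 := inv_sq_le (v := Lam * x.1 + Lam * ρ)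
      have e1 : Lam * (x.1 - ρ) = Lam * x.1 - Lam * ρ := by ring
      have e2 : Lam * (x.1 + ρ) = Lam * x.1 + Lam * ρ := by ring
      rw [e1, e2]
      calc _ ≤ C * Lam * ((1 + (Lam * x.1 - Lam * ρ) ^ 2)⁻¹ +
            (1 + (Lam * x.1 + Lam * ρ) ^ 2)⁻¹) :=
            mul_le_mul_of_nonneg_left (add_le_add h4 h5) (by positivity)
        _ = _ := by ring
    obtain ⟨h1, h2, h3⟩ := GT_bounds hYG n hn1 L Lam A B f CZ (fun v => hCZ L v hL) hL hLam hf hA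
      C hC0 univ MeasurableSet.univ hk
    simp only [Measure.restrict_univ] at h2 h3
    have hm := measurable_GT hZB n hn1 L Lam hL f hf.1
    refine ⟨hm, ?_, ?_, ?_⟩
    · intro v
      have hmv : Measurable (GT n L Lam f v) := meas_left (g := GT n L Lam f) hm v
      exact ⟨hmv.aestronglyMeasurable, h3 v⟩
    · intro v x
      refine (h1 v x (mem_univ x)).trans ?_
      apply mul_le_mul_of_nonneg_right _ hA0
      have : 0 ≤ (2 * Real.pi * C * CZ) ^ 2 := by positivity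
      linarith
    · refine h2.trans ?_
      gcongr
      have : 0 ≤ 2 * Real.pi * C * CZ := by positivity
      linarith
  · intro N
    obtain ⟨C₀, hC0', hC⟩ := hKW n (N + 2) hn
    set c₀ : ℝ := C₀ * 2 ^ N with hc₀
    have hc0 : 0 ≤ c₀ := by positivity
    refine ⟨2 * Real.pi * c₀ * CZ + (2 * Real.pi * c₀ * CZ) ^ 2, by positivity, ?_⟩
    intro L Lam A B D f hL hLam hf hfs hA hLD hfD
    have hA0 : 0 ≤ A :=
      (mul_nonneg (Real.rpow_nonneg (Real.sqrt_nonneg _) _) (norm_nonneg _)).trans (hA 0)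
    have hLD0 : 0 < Lam * D := by linarith
    have hD : 0 < D := pos_of_mul_pos_right hLD0 hLam.le
    set q : ℝ := (Lam * D) ^ N with hq
    have hq1 : 1 ≤ q := one_le_pow₀ hLD
    have hq0 : 0 < q := by linarith
    set c : ℝ := c₀ / q with hc
    have hcn : 0 ≤ c := by positivity
    set S : Set (ℝ × ℝ) := {x : ℝ × ℝ | |x.1| ≤ D / 2} with hS
    have hSm : MeasurableSet S := by
      rw [hS]
      exact measurableSet_le (by fun_prop) (by fun_prop)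
    have hk : ∀ x ∈ S, ∀ ρ : ℝ, 0 < ρ → ∀ v w : Sp n,
        f (jo (ρ • (w : EE n)) x.2) ≠ 0 →
        ‖((Lam : ℝ) : ℂ) * kz n L (fun s => ((chi s : ℝ) : ℂ)) (Lam * x.1) (Lam * ρ) v w‖ ≤
        c * (Lam * (1 + (Lam * (x.1 - ρ)) ^ 2)⁻¹ + Lam * (1 + (Lam * (x.1 + ρ)) ^ 2)⁻¹) *
          bz n L v w := by
      intro x hx ρ hρ v w hz
      have h0 := hfs _ hz
      have hρD := hfD _ hz
      rw [hor_jo' w hρ] at h0 hρD
      have hx' : |x.1| ≤ D / 2 := hx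
      rw [abs_le] at hx'
      have h1 := (hC L Lam x.1 ρ v w hL hLam h0).1
      have hb0 : 0 ≤ bz n L v w := by unfold bz; positivity
      have hw : ∀ v : ℝ, Lam * (D / 2) ≤ |v| →
          ((1 + |v|) ^ (N + 2))⁻¹ ≤ 2 ^ N / q * (1 + v ^ 2)⁻¹ := by
        intro v hv
        have h3 : (Lam * D / 2) ^ N ≤ (1 + |v|) ^ N := by
          apply pow_le_pow_left₀ (by positivity)
          have : Lam * D / 2 = Lam * (D / 2) := by ring
          linarith
        have h4 : ((1 + |v|) ^ N)⁻¹ ≤ 2 ^ N / q := by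
          rw [div_pow] at h3
          calc ((1 + |v|) ^ N)⁻¹ ≤ ((Lam * D) ^ N / 2 ^ N)⁻¹ := by
                apply inv_anti₀ (by positivity) h3
            _ = 2 ^ N / q := by rw [inv_div]
        calc ((1 + |v|) ^ (N + 2))⁻¹ = ((1 + |v|) ^ N)⁻¹ * ((1 + |v|) ^ 2)⁻¹ := by
              rw [pow_add, mul_inv]
          _ ≤ 2 ^ N / q * (1 + v ^ 2)⁻¹ :=
              mul_le_mul h4 inv_sq_le (by positivity) (by positivity)
      have h5 : Lam * (D / 2) ≤ |Lam * x.1 - Lam * ρ| := by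
        rw [← mul_sub, abs_mul, abs_of_pos hLam]
        gcongr
        rw [abs_sub_comm]
        refine le_trans ?_ (le_abs_self _)
        linarith
      have h6 : Lam * (D / 2) ≤ |Lam * x.1 + Lam * ρ| := by
        rw [← mul_add, abs_mul, abs_of_pos hLam]
        gcongr
        refine le_trans ?_ (le_abs_self _)
        linarith
      refine h1.trans ?_
      apply mul_le_mul_of_nonneg_right _ hb0
      have e1 : Lam * (x.1 - ρ) = Lam * x.1 - Lam * ρ := by ring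
      have e2 : Lam * (x.1 + ρ) = Lam * x.1 + Lam * ρ := by ring
      rw [e1, e2]
      calc _ ≤ C₀ * Lam * (2 ^ N / q * (1 + (Lam * x.1 - Lam * ρ) ^ 2)⁻¹ +
              2 ^ N / q * (1 + (Lam * x.1 + Lam * ρ) ^ 2)⁻¹) := by
            apply mul_le_mul_of_nonneg_left _ (by positivity)
            exact add_le_add (hw _ h5) (hw _ h6)
        _ = _ := by rw [hc, hc₀]; ring
    obtain ⟨h1, h2, h3⟩ := GT_bounds hYG n hn1 L Lam A B f CZ (fun v => hCZ L v hL) hL hLam hf hA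
      c hcn S hSm hk
    refine ⟨?_, ?_⟩
    · intro v x hx
      refine (h1 v x hx).trans ?_
      rw [hc]
      have : 2 * Real.pi * (c₀ / q) * CZ * A = (2 * Real.pi * c₀ * CZ) * A / q := by ring
      rw [this]
      apply div_le_div_of_nonneg_right _ hq0.le
      apply mul_le_mul_of_nonneg_right _ hA0
      have : 0 ≤ (2 * Real.pi * c₀ * CZ) ^ 2 := by positivity
      linarith
    · refine h2.trans ?_
      gcongr
      rw [hc]
      have h7 : (2 * Real.pi * (c₀ / q) * CZ) ^ 2 = (2 * Real.pi * c₀ * CZ) ^ 2 / q ^ 2 := by ring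
      rw [h7]
      calc (2 * Real.pi * c₀ * CZ) ^ 2 / q ^ 2 ≤ (2 * Real.pi * c₀ * CZ) ^ 2 / q := by
            apply div_le_div_of_nonneg_left (by positivity) hq0
            nlinarith
        _ ≤ _ := by
            gcongr
            have : 0 ≤ 2 * Real.pi * c₀ * CZ := by positivity
            linarith

end Pool.Agent.H14.BR
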