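import Pool.Agent.H83.AR.Targets
import Pool.Agent.H57.LS.GBase
import Pool.Agent.H54.LS.AVG

/-! Module GO of br_modules, part 1: measurability and cylindrical coordinates. -/

set_option autoImplicit false

namespace Pool.Agent.H14.BR

open MeasureTheory Set
open Pool.Agent.H83.AR Pool.Agent.H93.AR Pool.Agent.H83.LS Pool.Agent.H54.LS Pool.Agent.H14.LS
open Pool.Agent.H57.LS (measurable_ck ck lintegral_ck schur contDiff_chi)
open scoped ENNReal NNReal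

/-- cylindrical coordinates, lower integrals -/
theorem lint_cyl (n : ℕ) (hn : 1 ≤ n) (h : EE (n + 1) → ℝ≥0∞) (hh : Measurable h) :
    ∫⁻ x, h x = ∫⁻ w : Sp n, ∫⁻ y : ℝ × ℝ, (Ioi (0 : ℝ)).indicator
      (fun ρ => ENNReal.ofReal (ρ ^ (n - 1)) * h (jo (ρ • (w : EE n)) y.2)) y.1
        ∂volume ∂(sg n) := by
  have hcm := (mp_cyl n hn).measurable
  have hm2 : Measurable fun q : Sp n × (Ioi (0 : ℝ) × ℝ) =>
      h (jo ((q.2.1 : ℝ) • (q.1 : EE n)) q.2.2) := hh.comp hcm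
  rw [← (mp_cyl n hn).lintegral_comp hh, lintegral_prod _ hm2.aemeasurable]
  refine lintegral_congr fun w => ?_
  have hm3 : Measurable fun r : Ioi (0 : ℝ) × ℝ =>
      h (jo ((r.1 : ℝ) • (w : EE n)) r.2) := hm2.comp (measurable_const.prodMk measurable_id)
  rw [lintegral_prod _ hm3.aemeasurable]
  have hjo : Measurable fun q : ℝ × ℝ => h (jo (q.1 • (w : EE n)) q.2) := by
    refine hh.comp ?_
    have : Continuous fun q : ℝ × ℝ => ((q.1 • (w : EE n), q.2) : EE n × ℝ) := by fun_prop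
    exact (continuous_jo.comp this).measurable
  have hG : Measurable fun ρ : ℝ => ∫⁻ z : ℝ, h (jo (ρ • (w : EE n)) z) :=
    hjo.lintegral_prod_right'
  have e1 : ∫⁻ ρ : Ioi (0 : ℝ), ∫⁻ z : ℝ, h (jo ((ρ : ℝ) • (w : EE n)) z) ∂volume ∂(nu n) =
      ∫⁻ ρ in Ioi (0 : ℝ), ENNReal.ofReal (ρ ^ (n - 1)) *
        ∫⁻ z : ℝ, h (jo (ρ • (w : EE n)) z) := by
    unfold nu Measure.volumeIoiPow
    have hd : Measurable fun r : Ioi (0 : ℝ) => ENNReal.ofReal ((r : ℝ) ^ (n - 1)) := by fun_prop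
    have hG2 : Measurable fun ρ : Ioi (0 : ℝ) => ∫⁻ z : ℝ, h (jo ((ρ : ℝ) • (w : EE n)) z) :=
      hG.comp measurable_subtype_coe
    rw [lintegral_withDensity_eq_lintegral_mul _ hd hG2]
    simp only [Pi.mul_apply]
    exact lintegral_subtype_comap measurableSet_Ioi
      (fun ρ : ℝ => ENNReal.ofReal (ρ ^ (n - 1)) * ∫⁻ z : ℝ, h (jo (ρ • (w : EE n)) z))
  rw [e1, ← lintegral_indicator measurableSet_Ioi, Measure.volume_eq_prod, lintegral_prod]
  · refine lintegral_congr fun ρ => ?_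
    by_cases hρ : ρ ∈ Ioi (0 : ℝ)
    · simp only [indicator_of_mem hρ]
      rw [lintegral_const_mul' _ _ ENNReal.ofReal_ne_top]
    · simp only [indicator_of_notMem hρ]
      simp
  · apply Measurable.aemeasurable
    have h4 : Measurable fun q : ℝ × ℝ =>
        ENNReal.ofReal (q.1 ^ (n - 1)) * h (jo (q.1 • (w : EE n)) q.2) :=
      (by fun_prop : Measurable fun q : ℝ × ℝ => ENNReal.ofReal (q.1 ^ (n - 1))).mul hjo
    have h5 : (fun y : ℝ × ℝ => (Ioi (0 : ℝ)).indicator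
        (fun ρ => ENNReal.ofReal (ρ ^ (n - 1)) * h (jo (ρ • (w : EE n)) y.2)) y.1) =
        (Prod.fst ⁻¹' (Ioi (0 : ℝ))).indicator (fun q : ℝ × ℝ =>
          ENNReal.ofReal (q.1 ^ (n - 1)) * h (jo (q.1 • (w : EE n)) q.2)) := by
      funext y
      simp only [indicator, mem_preimage]
    rw [h5]
    exact h4.indicator (measurable_fst measurableSet_Ioi)

theorem measurable_kz_aux (n : ℕ) (zz : EE n → EE n → ℝ)
    (hz : Measurable fun q : EE n × EE n => zz q.1 q.2) (χ : ℝ → ℂ) (hχ : Measurable χ) :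
    Measurable fun p : (ℝ × ℝ) × (EE n × EE n) =>
      ∫ s in Ioi (0 : ℝ), e (p.1.1 * s) * χ s * (((p.1.2 * s) ^ (((n : ℝ) - 1) / 2) : ℝ) : ℂ) *
        ∫ w : Sp n, e (-(p.1.2 * s * inner ℝ p.2.1 (w : EE n))) *
          ((zz (w : EE n) p.2.2 : ℝ) : ℂ) ∂(sg n) := by
  have h1 : StronglyMeasurable fun q : ((ℝ × ℝ) × (EE n × EE n)) × ℝ =>
      ∫ w : Sp n, e (-(q.1.1.2 * q.2 * inner ℝ q.1.2.1 (w : EE n))) *
        ((zz (w : EE n) q.1.2.2 : ℝ) : ℂ) ∂(sg n) := by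
    apply StronglyMeasurable.integral_prod_right
      (f := fun (q : ((ℝ × ℝ) × (EE n × EE n)) × ℝ) (w : Sp n) =>
        e (-(q.1.1.2 * q.2 * inner ℝ q.1.2.1 (w : EE n))) *
        ((zz (w : EE n) q.1.2.2 : ℝ) : ℂ))
    apply Measurable.stronglyMeasurable
    apply Measurable.mul
    · have h3 : Measurable fun q : (((ℝ × ℝ) × (EE n × EE n)) × ℝ) × Sp n =>
          -(q.1.1.1.2 * q.1.2 * inner ℝ q.1.1.2.1 (q.2 : EE n)) := by fun_prop
      exact measurable_e.comp h3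
    · have h4 : Measurable fun q : (((ℝ × ℝ) × (EE n × EE n)) × ℝ) × Sp n =>
          (((q.2 : EE n), q.1.1.2.2) : EE n × EE n) := by fun_prop
      have h5 : Measurable fun q : (((ℝ × ℝ) × (EE n × EE n)) × ℝ) × Sp n =>
          zz (q.2 : EE n) q.1.1.2.2 := hz.comp h4
      exact Complex.measurable_ofReal.comp h5
  have h2 : StronglyMeasurable fun p : (ℝ × ℝ) × (EE n × EE n) =>
      ∫ s in Ioi (0 : ℝ), e (p.1.1 * s) * χ s * (((p.1.2 * s) ^ (((n : ℝ) - 1) / 2) : ℝ) : ℂ) *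
        ∫ w : Sp n, e (-(p.1.2 * s * inner ℝ p.2.1 (w : EE n))) *
          ((zz (w : EE n) p.2.2 : ℝ) : ℂ) ∂(sg n) := by
    apply StronglyMeasurable.integral_prod_right
      (f := fun (p : (ℝ × ℝ) × (EE n × EE n)) (s : ℝ) =>
        e (p.1.1 * s) * χ s * (((p.1.2 * s) ^ (((n : ℝ) - 1) / 2) : ℝ) : ℂ) *
        ∫ w : Sp n, e (-(p.1.2 * s * inner ℝ p.2.1 (w : EE n))) *
          ((zz (w : EE n) p.2.2 : ℝ) : ℂ) ∂(sg n))
    apply Measurable.stronglyMeasurable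
    apply Measurable.mul
    · apply Measurable.mul
      · apply Measurable.mul
        · have h3 : Measurable fun q : ((ℝ × ℝ) × (EE n × EE n)) × ℝ => q.1.1.1 * q.2 := by
            fun_prop
          exact measurable_e.comp h3
        · exact hχ.comp measurable_snd
      · have h3 : Measurable fun q : ((ℝ × ℝ) × (EE n × EE n)) × ℝ =>
            (q.1.1.2 * q.2) ^ (((n : ℝ) - 1) / 2) := by fun_prop
        exact Complex.measurable_ofReal.comp h3
    · exact h1.measurable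
  exact h2.measurable

/-- the kernel is jointly measurable -/
theorem measurable_kz (hZB : T_ZB) (n : ℕ) (hn : 1 ≤ n) (L : ℝ) (hL : 1 ≤ L) (χ : ℝ → ℂ)
    (hχ : Measurable χ) :
    Measurable fun p : (ℝ × ℝ) × (EE n × EE n) => kz n L χ p.1.1 p.1.2 p.2.1 p.2.2 := by
  obtain ⟨C, hC⟩ := hZB n hn
  exact measurable_kz_aux n (zk n L) (hC L hL).1 χ hχ

/-- the profile of `f` -/
noncomputable def Fr (n : ℕ) (f : EE (n + 1) → ℂ) (w : Sp n) (y : ℝ × ℝ) : ℂ :=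
  ((y.1 ^ (((n : ℝ) - 1) / 2) : ℝ) : ℂ) * f (jo (y.1 • (w : EE n)) y.2)

theorem measurable_Fr (n : ℕ) (f : EE (n + 1) → ℂ) (hf : Measurable f) :
    Measurable fun q : Sp n × (ℝ × ℝ) => Fr n f q.1 q.2 := by
  unfold Fr
  apply Measurable.mul
  · exact Complex.measurable_ofReal.comp (by fun_prop)
  · refine hf.comp ?_
    have : Continuous fun q : Sp n × (ℝ × ℝ) => ((q.2.1 • (q.1 : EE n), q.2.2) : EE n × ℝ) := by
      fun_prop
    exact (continuous_jo.comp this).measurable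

theorem measurable_GT (hZB : T_ZB) (n : ℕ) (hn : 1 ≤ n) (L Lam : ℝ) (hL : 1 ≤ L)
    (f : EE (n + 1) → ℂ) (hf : Measurable f) :
    Measurable fun q : Sp n × (ℝ × ℝ) => GT n L Lam f q.1 q.2 := by
  unfold GT
  have hk := measurable_kz hZB n hn L hL (fun σ => ((chi σ : ℝ) : ℂ))
    (Complex.measurable_ofReal.comp contDiff_chi.continuous.measurable)
  have hF := measurable_Fr n f hf
  have h1 : StronglyMeasurable fun q : (Sp n × (ℝ × ℝ)) × ℝ => ∫ w : Sp n, ((Lam : ℝ) : ℂ) *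
      kz n L (fun s => ((chi s : ℝ) : ℂ)) (Lam * q.1.2.1) (Lam * q.2) q.1.1 w *
      (((q.2 ^ (((n : ℝ) - 1) / 2) : ℝ) : ℂ) * f (jo (q.2 • (w : EE n)) q.1.2.2)) ∂(sg n) := by
    apply StronglyMeasurable.integral_prod_right
      (f := fun (q : (Sp n × (ℝ × ℝ)) × ℝ) (w : Sp n) => ((Lam : ℝ) : ℂ) *
      kz n L (fun s => ((chi s : ℝ) : ℂ)) (Lam * q.1.2.1) (Lam * q.2) q.1.1 w *
      (((q.2 ^ (((n : ℝ) - 1) / 2) : ℝ) : ℂ) * f (jo (q.2 • (w : EE n)) q.1.2.2)))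
    apply Measurable.stronglyMeasurable
    apply Measurable.mul
    · apply Measurable.const_mul
      exact hk.comp (f := fun q : ((Sp n × (ℝ × ℝ)) × ℝ) × Sp n =>
        (((Lam * q.1.1.2.1, Lam * q.1.2), ((q.1.1.1 : EE n), (q.2 : EE n))) :
          (ℝ × ℝ) × (EE n × EE n))) (by fun_prop)
    · exact hF.comp (f := fun q : ((Sp n × (ℝ × ℝ)) × ℝ) × Sp n =>
        ((q.2, (q.1.2, q.1.1.2.2)) : Sp n × (ℝ × ℝ))) (by fun_prop)
  have h2 : StronglyMeasurable fun q : Sp n × (ℝ × ℝ) => ∫ ρ in Ioi (0 : ℝ),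
      ∫ w : Sp n, ((Lam : ℝ) : ℂ) *
      kz n L (fun s => ((chi s : ℝ) : ℂ)) (Lam * q.2.1) (Lam * ρ) q.1 w *
      (((ρ ^ (((n : ℝ) - 1) / 2) : ℝ) : ℂ) * f (jo (ρ • (w : EE n)) q.2.2)) ∂(sg n) := by
    apply StronglyMeasurable.integral_prod_right
      (f := fun (q : Sp n × (ℝ × ℝ)) (ρ : ℝ) => ∫ w : Sp n, ((Lam : ℝ) : ℂ) *
      kz n L (fun s => ((chi s : ℝ) : ℂ)) (Lam * q.2.1) (Lam * ρ) q.1 w *
      (((ρ ^ (((n : ℝ) - 1) / 2) : ℝ) : ℂ) * f (jo (ρ • (w : EE n)) q.2.2)) ∂(sg n))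
    exact h1
  exact h2.measurable

end Pool.Agent.H14.BR
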