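import Pool.Agent.H83.AR.Targets
import Pool.Agent.H57.LS.PC1

/-! Module KW of br_modules: the kernel bound in the good region. -/

set_option autoImplicit false

namespace Pool.Agent.H14.BR

open MeasureTheory Set
open Pool.Agent.H83.AR Pool.Agent.H93.AR Pool.Agent.H83.LS Pool.Agent.H54.LS Pool.Agent.H14.LS
open scoped ENNReal NNReal

lemma norm_sp' {n : ℕ} (ω : Sp n) : ‖(ω : EE n)‖ = 1 := by
  have := ω.2
  rwa [mem_sphere_zero_iff_norm] at this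

lemma inv_pow_anti {y : ℝ} (hy : 0 ≤ y) {a b : ℕ} (hab : a ≤ b) :
    ((1 + y) ^ b)⁻¹ ≤ ((1 + y) ^ a)⁻¹ := by
  apply inv_anti₀ (by positivity)
  exact pow_le_pow_right₀ (by linarith) hab

lemma kw_aux {n N N1 : ℕ} (hN : N ≤ N1) (hn : n + 1 ≤ N1) {CB' L Lam x r : ℝ} {v w : EE n}
    (hC : 0 ≤ CB') (hL : 1 ≤ L) (hLam : 0 < Lam) {z : ℂ}
    (h : ‖z‖ ≤ CB' * L ^ (n - 1) *
      (((1 + |Lam * x - Lam * r|) ^ N1)⁻¹ * ((1 + L * ‖v - w‖) ^ N1)⁻¹ +
      ((1 + |Lam * x + Lam * r|) ^ N1)⁻¹ * ((1 + L * ‖v + w‖) ^ N1)⁻¹)) :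
    ‖((Lam : ℝ) : ℂ) * z‖ ≤
    CB' * Lam * (((1 + |Lam * x - Lam * r|) ^ N)⁻¹ + ((1 + |Lam * x + Lam * r|) ^ N)⁻¹) *
      bz n L v w := by
  have hL0 : 0 < L := by linarith
  rw [norm_mul, Complex.norm_real, Real.norm_of_nonneg hLam.le]
  unfold bz
  set a := ((1 + |Lam * x - Lam * r|) ^ N)⁻¹ with ha
  set b := ((1 + |Lam * x + Lam * r|) ^ N)⁻¹ with hb
  set c := ((1 + L * ‖v - w‖) ^ (n + 1))⁻¹ with hc
  set d := ((1 + L * ‖v + w‖) ^ (n + 1))⁻¹ with hd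
  have ha0 : 0 ≤ a := by positivity
  have hb0 : 0 ≤ b := by positivity
  have hc0 : 0 ≤ c := by positivity
  have hd0 : 0 ≤ d := by positivity
  have h1 : ((1 + |Lam * x - Lam * r|) ^ N1)⁻¹ * ((1 + L * ‖v - w‖) ^ N1)⁻¹ +
      ((1 + |Lam * x + Lam * r|) ^ N1)⁻¹ * ((1 + L * ‖v + w‖) ^ N1)⁻¹ ≤ (a + b) * (c + d) := by
    have e1 : ((1 + |Lam * x - Lam * r|) ^ N1)⁻¹ * ((1 + L * ‖v - w‖) ^ N1)⁻¹ ≤ a * c :=
      mul_le_mul (inv_pow_anti (abs_nonneg _) hN) (inv_pow_anti (by positivity) hn)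
        (by positivity) ha0
    have e2 : ((1 + |Lam * x + Lam * r|) ^ N1)⁻¹ * ((1 + L * ‖v + w‖) ^ N1)⁻¹ ≤ b * d :=
      mul_le_mul (inv_pow_anti (abs_nonneg _) hN) (inv_pow_anti (by positivity) hn)
        (by positivity) hb0
    have e3 : 0 ≤ a * d := mul_nonneg ha0 hd0
    have e4 : 0 ≤ b * c := mul_nonneg hb0 hc0
    calc _ ≤ a * c + b * d := add_le_add e1 e2
      _ ≤ (a + b) * (c + d) := by nlinarith
  calc Lam * ‖z‖ ≤ Lam * (CB' * L ^ (n - 1) * ((a + b) * (c + d))) := by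
        gcongr
        exact h.trans (mul_le_mul_of_nonneg_left h1 (by positivity))
    _ = CB' * Lam * (a + b) * (L ^ (n - 1) * (c + d)) := by ring

theorem pf_kw (hKZ : T_KZ) : T_KW := by
  intro n N hn
  obtain ⟨M, C, hC⟩ := hKZ n (max N (n + 1)) hn
  obtain ⟨B1, hB1, hB1'⟩ := Pool.Agent.H57.LS.CB_chi M
  obtain ⟨B2, hB2, hB2'⟩ := Pool.Agent.H57.LS.CB_chis M
  refine ⟨|C| * (B1 + B2), by positivity, ?_⟩
  intro L Lam x r v w hL hLam hr
  have hv : ‖(v : EE n)‖ = 1 := norm_sp' v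
  have hw : ‖(w : EE n)‖ = 1 := norm_sp' w
  have hL0 : 0 < L := by linarith
  have hmono : ∀ {B : ℝ}, 0 ≤ B → B ≤ B1 + B2 → ∀ {t : ℝ}, 0 ≤ t →
      C * B * t ≤ |C| * (B1 + B2) * t := by
    intro B hB hB' t ht
    have : C * B ≤ |C| * (B1 + B2) :=
      (mul_le_mul_of_nonneg_right (le_abs_self C) hB).trans
        (mul_le_mul_of_nonneg_left hB' (abs_nonneg C))
    exact mul_le_mul_of_nonneg_right this ht
  constructor
  · apply kw_aux (le_max_left _ _) (le_max_right _ _) (by positivity) hL hLam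
    refine (hC _ B1 L (Lam * x) (Lam * r) v w hB1' hL hr hv hw).trans ?_
    refine mul_le_mul_of_nonneg_right ?_ (by positivity)
    exact hmono hB1 (by linarith) (by positivity)
  · apply kw_aux (le_max_left _ _) (le_max_right _ _) (by positivity) hL hLam
    refine (hC _ B2 L (Lam * x) (Lam * r) v w hB2' hL hr hv hw).trans ?_
    refine mul_le_mul_of_nonneg_right ?_ (by positivity)
    exact hmono hB2 (by linarith) (by positivity)

end Pool.Agent.H14.BR
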